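import Mathlib

namespace Pool.Agent.MP_2c723a_al

variable {K V : Type*} [Field K] [AddCommGroup V] [Module K V]

/-- The commutator `[X, Y] = X Y - Y X`. -/
def comm (X Y : Module.End K V) : Module.End K V := X * Y - Y * X

/-- The two tridiagonal relations for the pair `A`, `B` (`B` plays the role of `A*`);
a module over the tridiagonal algebra is a vector space with such a pair. -/
def TDRelations (β γ γs ρ ρs : K) (A B : Module.End K V) : Prop :=
  comm A (A ^ 2 * B - β • (A * B * A) + B * A ^ 2 - γ • (A * B + B * A) - ρ • B) = 0 ∧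
  comm B (B ^ 2 * A - β • (B * A * B) + A * B ^ 2 - γs • (B * A + A * B) - ρs • A) = 0

/-- `V` is nonzero and the only subspaces invariant under both `A` and `B` are `0` and `V`. -/
def IrreduciblePair (A B : Module.End K V) : Prop :=
  Nontrivial V ∧ ∀ W : Submodule K V, W.map A ≤ W → W.map B ≤ W → W = ⊥ ∨ W = ⊤

/-- `A` is diagonalizable: `V` is spanned by the eigenspaces of `A`. -/
def Diagonalizable (A : Module.End K V) : Prop := ⨆ μ : K, A.eigenspace μ = ⊤

/-- The eigenspaces of `A` can be ordered `V_0, ..., V_d` (`V_i` belongs to the eigenvalue `θ i`)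
so that `B V_i ⊆ V_{i-1} + V_i + V_{i+1}`. -/
def ActsTridiagonally (A B : Module.End K V) : Prop :=
  ∃ (d : ℕ) (θ : Fin (d + 1) → K), Function.Injective θ ∧
    (∀ μ, A.HasEigenvalue μ ↔ μ ∈ Set.range θ) ∧
    ∀ i : Fin (d + 1), (A.eigenspace (θ i)).map B ≤
      ⨆ (j : Fin (d + 1)) (_ : j.val + 1 = i.val ∨ j.val = i.val ∨ j.val = i.val + 1),
        A.eigenspace (θ j)

/-- Tridiagonal pair. -/
def IsTDPair (A B : Module.End K V) : Prop :=
  Diagonalizable A ∧ Diagonalizable B ∧ ActsTridiagonally A B ∧ ActsTridiagonally B A ∧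
    IrreduciblePair A B

end Pool.Agent.MP_2c723a_al
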