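import Mathlib
import Pool.Agent.MP_2c723a_al.Defs

namespace Pool.Agent.MP_2c723a_al

open Module

variable {K : Type*} [Field K] {n : ℕ} [NeZero n]

/-- diagonal operator -/
def diagOp (θ : ZMod n → K) : Module.End K (ZMod n → K) where
  toFun f := fun i => θ i * f i
  map_add' f g := by ext i; simp [mul_add]
  map_smul' c f := by ext i; simp [mul_left_comm]

/-- adjacency operator of the cycle -/
def cycOp : Module.End K (ZMod n → K) where
  toFun f := fun i => f (i + 1) + f (i - 1)
  map_add' f g := by ext i; simp; ring
  map_smul' c f := by ext i; simp [mul_add]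

/-- shift operator -/
def shiftOp : Module.End K (ZMod n → K) where
  toFun f := fun i => f (i + 1)
  map_add' f g := by ext i; simp
  map_smul' c f := by ext i; simp

omit [NeZero n] in
@[simp] theorem diagOp_apply (θ f : ZMod n → K) (i : ZMod n) : diagOp θ f i = θ i * f i := rfl
omit [NeZero n] in
@[simp] theorem cycOp_apply (f : ZMod n → K) (i : ZMod n) :
    (cycOp : Module.End K (ZMod n → K)) f i = f (i + 1) + f (i - 1) := rfl
omit [NeZero n] in
@[simp] theorem shiftOp_apply (f : ZMod n → K) (i : ZMod n) :
    (shiftOp : Module.End K (ZMod n → K)) f i = f (i + 1) := rfl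

omit [NeZero n] in
theorem two_ne (hn : 3 ≤ n) : (2 : ZMod n) ≠ 0 := by
  intro h
  have : ((2 : ℕ) : ZMod n) = 0 := by exact_mod_cast h
  rw [ZMod.natCast_eq_zero_iff] at this
  have := Nat.le_of_dvd (by norm_num) this
  omega

omit [NeZero n] in
theorem one_ne (hn : 3 ≤ n) : (1 : ZMod n) ≠ 0 := by
  intro h
  apply two_ne hn
  have : (2 : ZMod n) = 1 + 1 := by norm_num
  rw [this, h]; simp

omit [NeZero n] in
theorem relations (θ : ZMod n → K) (β ρ : K)
    (h1 : ∀ i, θ i ^ 2 - β * θ i * θ (i + 1) + θ (i + 1) ^ 2 = ρ)
    (h2 : ∀ i, θ (i + 1) + θ (i - 1) = β * θ i) (h3 : ρ = 4 - β ^ 2) :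
    TDRelations β 0 0 ρ ρ (diagOp θ) (cycOp : Module.End K (ZMod n → K)) := by
  constructor
  · have : (diagOp θ) ^ 2 * cycOp - β • (diagOp θ * cycOp * diagOp θ) + cycOp * (diagOp θ) ^ 2
        - (0 : K) • (diagOp θ * cycOp + cycOp * diagOp θ) - ρ • cycOp = 0 := by
      ext f i
      simp only [pow_two, LinearMap.sub_apply, LinearMap.add_apply,
        LinearMap.smul_apply, Module.End.mul_apply, Pi.sub_apply, Pi.add_apply, Pi.smul_apply,
        diagOp_apply, cycOp_apply, smul_eq_mul, LinearMap.zero_apply, Pi.zero_apply]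
      have a := h1 i
      have b := h1 (i - 1)
      simp only [sub_add_cancel] at b
      linear_combination f (i + 1) * a + f (i - 1) * b
    rw [this]; simp [comm]
  · have : (cycOp : Module.End K (ZMod n → K)) ^ 2 * diagOp θ - β • (cycOp * diagOp θ * cycOp)
        + diagOp θ * cycOp ^ 2
        - (0 : K) • (cycOp * diagOp θ + diagOp θ * cycOp) - ρ • diagOp θ = 0 := by
      ext f i
      simp only [pow_two, LinearMap.sub_apply, LinearMap.add_apply,
        LinearMap.smul_apply, Module.End.mul_apply, Pi.sub_apply, Pi.add_apply, Pi.smul_apply,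
        diagOp_apply, cycOp_apply, smul_eq_mul, LinearMap.zero_apply, Pi.zero_apply,
        add_sub_cancel_right, sub_add_cancel]
      have a := h2 (i + 1)
      have b := h2 (i - 1)
      have c := h2 i
      simp only [sub_add_cancel, add_sub_cancel_right] at a b
      subst h3
      linear_combination f (i + 1 + 1) * a + f (i - 1 - 1) * b - β * f i * c
    rw [this]; simp [comm]

theorem single_mem (θ : ZMod n → K) (hθ : Function.Injective θ) (W : Submodule K (ZMod n → K))
    (hW : W.map (diagOp θ) ≤ W) (w : ZMod n → K) (hw : w ∈ W) (i : ZMod n) (hi : w i ≠ 0) :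
    (Pi.single i 1 : ZMod n → K) ∈ W := by
  classical
  have key : ∀ s : Finset (ZMod n), (fun j => (∏ k ∈ s, (θ j - θ k)) * w j) ∈ W := by
    intro s
    induction s using Finset.induction_on with
    | empty => simpa using hw
    | insert a s ha ih =>
      have h1 := hW (Submodule.mem_map_of_mem ih)
      have h2 := W.sub_mem h1 (W.smul_mem (θ a) ih)
      convert h2 using 1
      ext j
      simp [Finset.prod_insert ha]
      ring
  have h := key (Finset.univ.erase i)
  have hc : (∏ k ∈ Finset.univ.erase i, (θ i - θ k)) * w i ≠ 0 := by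
    refine mul_ne_zero (Finset.prod_ne_zero_iff.mpr fun k hk => ?_) hi
    exact sub_ne_zero.mpr fun e => (Finset.ne_of_mem_erase hk) (hθ e).symm
  have h2 := W.smul_mem ((∏ k ∈ Finset.univ.erase i, (θ i - θ k)) * w i)⁻¹ h
  convert h2 using 1
  ext j
  by_cases hj : j = i
  · subst hj
    simp only [Pi.single_eq_same, Pi.smul_apply, smul_eq_mul]
    rw [inv_mul_cancel₀ hc]
  · have : ∏ k ∈ Finset.univ.erase i, (θ j - θ k) = 0 :=
      Finset.prod_eq_zero (i := j) (by simp [hj]) (by simp)
    simp [Pi.single_eq_of_ne hj, this]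

theorem irreducible (hn : 3 ≤ n) (θ : ZMod n → K) (hθ : Function.Injective θ) :
    IrreduciblePair (diagOp θ) (cycOp : Module.End K (ZMod n → K)) := by
  classical
  refine ⟨inferInstance, fun W hA hB => ?_⟩
  by_cases hW : W = ⊥
  · exact Or.inl hW
  right
  obtain ⟨w, hw, hw0⟩ := Submodule.exists_mem_ne_zero_of_ne_bot hW
  obtain ⟨i, hi⟩ := Function.ne_iff.mp hw0
  have h0 := single_mem θ hθ W hA w hw i hi
  have step : ∀ j : ZMod n, (Pi.single j 1 : ZMod n → K) ∈ W →
      (Pi.single (j + 1) 1 : ZMod n → K) ∈ W := by
    intro j hj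
    refine single_mem θ hθ W hA _ (hB (Submodule.mem_map_of_mem hj)) (j + 1) ?_
    have : j + 1 + 1 ≠ j := by
      intro e
      apply two_ne hn
      linear_combination e
    simp [Pi.single_eq_of_ne this]
  have all : ∀ m : ℕ, (Pi.single (i + m) 1 : ZMod n → K) ∈ W := by
    intro m
    induction m with
    | zero => simpa using h0
    | succ m ih =>
      have := step _ ih
      simpa [add_assoc] using this
  have all' : ∀ j : ZMod n, (Pi.single j 1 : ZMod n → K) ∈ W := by
    intro j
    have := all (j - i).val
    simpa using this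
  rw [eq_top_iff]
  intro f _
  rw [pi_eq_sum_univ' f]
  refine W.sum_mem fun j _ => W.smul_mem _ ?_
  exact all' j

theorem diag_A (θ : ZMod n → K) : Diagonalizable (diagOp θ) := by
  classical
  unfold Diagonalizable
  rw [eq_top_iff]
  intro f _
  rw [pi_eq_sum_univ' f]
  refine Submodule.sum_mem _ fun j _ => Submodule.smul_mem _ _ ?_
  refine Submodule.mem_iSup_of_mem (θ j) ?_
  rw [Module.End.mem_eigenspace_iff]
  ext i
  by_cases h : i = j
  · subst h; simp
  · simp [Pi.single_eq_of_ne h]

omit [NeZero n] in
theorem hasEigenvalue_A (θ : ZMod n → K) (j : ZMod n) : (diagOp θ).HasEigenvalue (θ j) := by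
  classical
  refine Module.End.hasEigenvalue_of_hasEigenvector (x := Pi.single j 1) ⟨?_, ?_⟩
  · rw [Module.End.mem_eigenspace_iff]
    ext i
    by_cases h : i = j
    · subst h; simp
    · simp [Pi.single_eq_of_ne h]
  · intro h
    have := congrFun h j
    simp at this

omit [NeZero n] in
theorem not_tridiag (hn : 3 ≤ n) (θ : ZMod n → K) (hθ : Function.Injective θ) :
    ¬ ActsTridiagonally (diagOp θ) (cycOp : Module.End K (ZMod n → K)) := by
  classical
  rintro ⟨d, η, hη, hev, htri⟩
  -- the first eigenvalue is some `θ i`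
  have h0 : (diagOp θ).HasEigenvalue (η 0) := (hev _).mpr ⟨0, rfl⟩
  obtain ⟨v, hv, hv0⟩ := h0.exists_hasEigenvector
  obtain ⟨i, hi⟩ := Function.ne_iff.mp hv0
  rw [Module.End.mem_eigenspace_iff] at hv
  have hi0 : θ i = η 0 := by
    have := congrFun hv i
    simp only [diagOp_apply, Pi.smul_apply, smul_eq_mul] at this
    exact mul_right_cancel₀ hi this
  have hmem : (Pi.single i 1 : ZMod n → K) ∈ (diagOp θ).eigenspace (η 0) := by
    rw [Module.End.mem_eigenspace_iff]
    ext k
    by_cases h : k = i
    · subst h; simp [hi0]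
    · simp [Pi.single_eq_of_ne h]
  have h1 := htri 0 (Submodule.mem_map_of_mem hmem)
  -- support condition
  have supp : ∀ k : ZMod n, k ≠ i → cycOp (Pi.single i 1 : ZMod n → K) k ≠ 0 →
      ∃ j : Fin (d + 1), j.val = 1 ∧ θ k = η j := by
    intro k hk hne
    by_contra hcon
    push Not at hcon
    apply hne
    have hle : (⨆ (j : Fin (d + 1)) (_ : j.val + 1 = (0 : Fin (d + 1)).val ∨
        j.val = (0 : Fin (d + 1)).val ∨ j.val = (0 : Fin (d + 1)).val + 1),
        (diagOp θ).eigenspace (η j)) ≤ LinearMap.ker (LinearMap.proj (R := K) (φ := fun _ : ZMod n => K) k) := by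
      refine iSup₂_le fun j hj => ?_
      intro f hf
      rw [Module.End.mem_eigenspace_iff] at hf
      have hfk := congrFun hf k
      simp only [diagOp_apply, Pi.smul_apply, smul_eq_mul] at hfk
      simp only [LinearMap.mem_ker, LinearMap.proj_apply]
      by_contra hf0
      have e := mul_right_cancel₀ hf0 hfk
      simp only [Fin.val_zero] at hj
      rcases hj with hj | hj | hj
      · omega
      · have : j = 0 := Fin.ext (by simpa using hj)
        subst this
        exact hk (hθ (e.trans hi0.symm))
      · exact hcon j (by omega) e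
    simpa using hle h1
  have n1 : i + 1 ≠ i := by
    intro e; apply one_ne hn; linear_combination e
  have n2 : i - 1 ≠ i := by
    intro e; apply one_ne hn; linear_combination -e
  have n3 : i + 1 + 1 ≠ i := by
    intro e; apply two_ne hn; linear_combination e
  have n4 : i - 1 - 1 ≠ i := by
    intro e; apply two_ne hn; linear_combination -e
  obtain ⟨j1, hj1, e1⟩ := supp (i + 1) n1 (by simp [Pi.single_eq_of_ne n3])
  obtain ⟨j2, hj2, e2⟩ := supp (i - 1) n2 (by simp [Pi.single_eq_of_ne n4])
  have : j1 = j2 := Fin.ext (hj1.trans hj2.symm)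
  subst this
  have := hθ (e1.trans e2.symm)
  apply two_ne hn
  linear_combination this

section chars

variable {q : K} (hq : IsPrimitiveRoot q n)

/-- `i ↦ q ^ i` -/
def chi (q : K) (i : ZMod n) : K := q ^ i.val

include hq in
theorem chi_add (i j : ZMod n) : chi q (i + j) = chi q i * chi q j := by
  have := (AddChar.zmodChar n hq.pow_eq_one).map_add_eq_mul i j
  simpa [AddChar.zmodChar_apply, chi] using this

omit [NeZero n] in
theorem chi_zero : chi q (0 : ZMod n) = 1 := by simp [chi]

omit [NeZero n] in
theorem chi_one (hn : 3 ≤ n) : chi q (1 : ZMod n) = q := by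
  have : Fact (1 < n) := ⟨by omega⟩
  simp [chi, ZMod.val_one]

include hq in
theorem chi_ne (i : ZMod n) : chi q i ≠ 0 :=
  pow_ne_zero _ (hq.ne_zero (NeZero.ne n))

include hq in
theorem chi_neg (i : ZMod n) : chi q (-i) = (chi q i)⁻¹ := by
  have := chi_add hq i (-i)
  rw [add_neg_cancel, chi_zero] at this
  exact eq_inv_of_mul_eq_one_right this.symm

include hq in
theorem chi_inj : Function.Injective (chi q : ZMod n → K) := by
  intro i j h
  exact ZMod.val_injective n (hq.pow_inj (ZMod.val_lt i) (ZMod.val_lt j) h)

include hq in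
theorem chi_pow (i : ZMod n) : chi q i ^ n = 1 := by
  rw [chi, ← pow_mul, mul_comm, pow_mul, hq.pow_eq_one, one_pow]

/-- eigenvectors of the shift -/
def vec (q : K) (k : ZMod n) : ZMod n → K := fun i => chi q (k * i)

include hq in
theorem vec_shift (k : ZMod n) : (shiftOp : Module.End K (ZMod n → K)).HasEigenvector (chi q k) (vec q k) := by
  refine ⟨?_, ?_⟩
  · rw [Module.End.mem_eigenspace_iff]
    ext i
    simp [vec, mul_add, chi_add hq, mul_comm]
  · intro h
    have := congrFun h 0
    simp [vec, chi_zero] at this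

include hq in
theorem vec_li : LinearIndependent K (vec q : ZMod n → ZMod n → K) := by
  have := Module.End.eigenvectors_linearIndependent' (shiftOp : Module.End K (ZMod n → K))
    (chi q : ZMod n → K) (chi_inj hq) (vec q) (vec_shift hq)
  exact this

include hq in
theorem vec_cyc (k : ZMod n) :
    vec q k ∈ (cycOp : Module.End K (ZMod n → K)).eigenspace (chi q k + (chi q k)⁻¹) := by
  rw [Module.End.mem_eigenspace_iff]
  ext i
  simp only [vec, cycOp_apply, Pi.smul_apply, smul_eq_mul, mul_add, mul_one, sub_eq_add_neg,
    mul_neg, chi_add hq, chi_neg hq]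
  ring

include hq in
theorem diag_B : Diagonalizable (cycOp : Module.End K (ZMod n → K)) := by
  unfold Diagonalizable
  rw [eq_top_iff, ← (vec_li hq).span_eq_top_of_card_eq_finrank (by simp), Submodule.span_le]
  rintro _ ⟨k, rfl⟩
  exact Submodule.mem_iSup_of_mem _ (vec_cyc hq k)

include hq in
theorem finrank_two : Module.finrank K ((cycOp : Module.End K (ZMod n → K)).eigenspace 2) = 1 := by
  have hn0 : (n : K) ≠ 0 := hq.neZero'.ne
  have : (cycOp : Module.End K (ZMod n → K)).eigenspace 2 = Submodule.span K {fun _ => 1} := by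
    apply le_antisymm
    · intro f hf
      rw [Module.End.mem_eigenspace_iff] at hf
      have h1 : ∀ i, f (i + 1) - f i = f i - f (i - 1) := by
        intro i
        have := congrFun hf i
        simp only [cycOp_apply, Pi.smul_apply, smul_eq_mul] at this
        linear_combination this
      have h2 : ∀ m : ℕ, f ((m : ZMod n) + 1) - f m = f 1 - f 0 := by
        intro m
        induction m with
        | zero => simp
        | succ m ih => rw [h1]; push_cast; simpa using ih
      have h3 : ∀ m : ℕ, f (m : ZMod n) = f 0 + m * (f 1 - f 0) := by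
        intro m
        induction m with
        | zero => simp
        | succ m ih => have := h2 m; push_cast; linear_combination this + ih
      have h4 : f 1 - f 0 = 0 := by
        have := h3 n
        simp only [CharP.cast_eq_zero, left_eq_add, mul_eq_zero, hn0, false_or] at this
        exact this
      rw [Submodule.mem_span_singleton]
      refine ⟨f 0, ?_⟩
      ext i
      have := h3 i.val
      simp only [ZMod.natCast_val, ZMod.cast_id', id_eq, h4, mul_zero, add_zero] at this
      simp [this]
    · rw [Submodule.span_le]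
      rintro _ rfl
      simp only [SetLike.mem_coe]
      rw [Module.End.mem_eigenspace_iff]
      ext i
      simp; norm_num
  rw [this]
  apply finrank_span_singleton
  intro h
  have := congrFun h 0
  simp at this

include hq in
theorem finrank_q (hn : 3 ≤ n) :
    Module.finrank K ((cycOp : Module.End K (ZMod n → K)).eigenspace (q + q⁻¹)) = 2 := by
  apply le_antisymm
  · -- an eigenvector is determined by its values at `0` and `1`
    let φ : (cycOp : Module.End K (ZMod n → K)).eigenspace (q + q⁻¹) →ₗ[K] (Fin 2 → K) :=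
      (LinearMap.funLeft K K (![0, 1] : Fin 2 → ZMod n)).comp (Submodule.subtype _)
    have hφ : Function.Injective φ := by
      rw [← LinearMap.ker_eq_bot, eq_bot_iff]
      rintro ⟨f, hf⟩ h
      rw [Module.End.mem_eigenspace_iff] at hf
      have h0 : f 0 = 0 := by simpa [φ] using congrFun h 0
      have h1 : f 1 = 0 := by simpa [φ] using congrFun h 1
      have key : ∀ m : ℕ, f (m : ZMod n) = 0 ∧ f ((m : ZMod n) + 1) = 0 := by
        intro m
        induction m with
        | zero => simp [h0, h1]
        | succ m ih =>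
          push_cast
          refine ⟨ih.2, ?_⟩
          have := congrFun hf ((m : ZMod n) + 1)
          simpa [ih.1, ih.2] using this
      simp only [Submodule.mem_bot, Submodule.mk_eq_zero]
      ext i
      simpa using (key i.val).1
    simpa using LinearMap.finrank_le_finrank_of_injective hφ
  · have m1 : vec q (1 : ZMod n) ∈ (cycOp : Module.End K (ZMod n → K)).eigenspace (q + q⁻¹) := by
      simpa [chi_one hn] using vec_cyc hq 1
    have m2 : vec q (-1 : ZMod n) ∈ (cycOp : Module.End K (ZMod n → K)).eigenspace (q + q⁻¹) := by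
      simpa [chi_neg hq, chi_one hn, add_comm] using vec_cyc hq (-1)
    have hinj : Function.Injective (![1, -1] : Fin 2 → ZMod n) := by
      have : (1 : ZMod n) ≠ -1 := by
        intro e; apply two_ne hn; linear_combination e
      intro a b
      fin_cases a <;> fin_cases b <;> simp [this, this.symm]
    have li := (vec_li hq).comp _ hinj
    let v : Fin 2 → (cycOp : Module.End K (ZMod n → K)).eigenspace (q + q⁻¹) :=
      ![⟨_, m1⟩, ⟨_, m2⟩]
    have li2 : LinearIndependent K v := by
      apply LinearIndependent.of_comp (Submodule.subtype _)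
      have e : ⇑(Submodule.subtype _) ∘ v = vec q ∘ (![1, -1] : Fin 2 → ZMod n) := by
        ext a : 1
        fin_cases a <;> rfl
      rw [e]
      exact li
    simpa using li2.fintype_card_le_finrank

end chars

omit [NeZero n] in
theorem exists_param [Infinite K] (hn : 3 ≤ n) : ∃ a : K, a ≠ 0 ∧ a ^ (2 * n) ≠ 1 := by
  classical
  have hfin : {a : K | a ^ (2 * n) = 1}.Finite := by
    apply Set.Finite.subset (Polynomial.nthRoots (2 * n) (1 : K)).toFinset.finite_toSet
    intro a ha
    simp only [Finset.mem_coe, Multiset.mem_toFinset]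
    rw [Polynomial.mem_nthRoots (by omega)]
    exact ha
  obtain ⟨a, ha⟩ := (hfin.insert 0).exists_notMem
  simp only [Set.mem_insert_iff, Set.mem_ofPred_eq, not_or] at ha
  exact ⟨a, ha.1, ha.2⟩

theorem main [Infinite K] (hn : 3 ≤ n) {q : K} (hq : IsPrimitiveRoot q n) :
    ∃ A B : Module.End K (ZMod n → K),
      TDRelations (q + q⁻¹) 0 0 (-(q - q⁻¹) ^ 2) (-(q - q⁻¹) ^ 2) A B ∧
      IrreduciblePair A B ∧ Diagonalizable A ∧ Diagonalizable B ∧ ¬ IsTDPair A B ∧
      Module.finrank K (B.eigenspace 2) = 1 ∧ Module.finrank K (B.eigenspace (q + q⁻¹)) = 2 := by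
  obtain ⟨a, ha0, ha⟩ := exists_param (K := K) hn
  have hq0 : q ≠ 0 := hq.ne_zero (NeZero.ne n)
  let θ : ZMod n → K := fun i => a * chi q i + (a * chi q i)⁻¹
  have hθ : Function.Injective θ := by
    intro i j h
    have hi := chi_ne hq i
    have hj := chi_ne hq j
    simp only [θ] at h
    have h2 : (chi q i - chi q j) * (a ^ 2 * chi q i * chi q j - 1) = 0 := by
      field_simp at h
      linear_combination h
    rcases mul_eq_zero.mp h2 with h3 | h3
    · exact chi_inj hq (sub_eq_zero.mp h3)
    · exfalso
      apply ha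
      have h4 : a ^ 2 * chi q i * chi q j = 1 := by linear_combination h3
      have h5 := congrArg (· ^ n) h4
      simpa [mul_pow, chi_pow hq, ← pow_mul] using h5
  refine ⟨diagOp θ, cycOp, ?_, irreducible hn θ hθ, diag_A θ, diag_B hq, ?_, finrank_two hq,
    finrank_q hq hn⟩
  · apply relations
    · intro i
      have hi := chi_ne hq i
      simp only [θ, chi_add hq, chi_one hn]
      field_simp
      ring
    · intro i
      have hi := chi_ne hq i
      simp only [θ, sub_eq_add_neg, chi_add hq, chi_neg hq, chi_one hn]
      field_simp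
      ring
    · field_simp
      ring
  · intro h
    exact not_tridiag hn θ hθ h.2.2.1

end Pool.Agent.MP_2c723a_al
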